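import Pool.Agent.Helper29.UG.Props
import Mathlib.Analysis.CStarAlgebra.Module.Constructions

/-!
# Packet UG-MidD: midpoint property for systems of matrix units
-/

open scoped ENNReal NNReal InnerProductSpace ComplexOrder
open Filter Topology

attribute [-instance] CStarMatrix.instAlgebra CStarMatrix.instModule CStarMatrix.instSMul
  CStarMatrix.instMulAction CStarMatrix.instDistribMulAction

noncomputable section
namespace RC
universe u

section
variable {A : Type u} [CStarAlgebra A] [PartialOrder A] [StarOrderedRing A]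

theorem midD_sq_le {y : A} (h0 : 0 ≤ y) (h1 : y ≤ 1) : y * y ≤ y := by
  have h2 : 0 ≤ y * (1 - y) :=
    Commute.mul_nonneg h0 (sub_nonneg.mpr h1) ((Commute.one_right y).sub_right (Commute.refl y))
  rw [mul_sub, mul_one] at h2
  exact sub_nonneg.mp h2

theorem midD_sum_sq_le {y : A} (h0 : 0 ≤ y) (h1 : y ≤ 1) :
    y * y + (1 - y) * (1 - y) ≤ 1 := by
  have h2 := sub_nonneg.mpr (midD_sq_le h0 h1)
  have h3 : (1 : A) - (y * y + (1 - y) * (1 - y)) = (y - y * y) + (y - y * y) := by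
    noncomm_ring
  have h4 : 0 ≤ (1 : A) - (y * y + (1 - y) * (1 - y)) := by
    rw [h3]
    exact add_nonneg h2 h2
  exact sub_nonneg.mp h4

theorem midD_cs (v₁ v₂ w₁ w₂ : A) : ‖w₁ * star v₁ + w₂ * star v₂‖ ^ 2 ≤
    ‖v₁ * star v₁ + v₂ * star v₂‖ * ‖w₁ * star w₁ + w₂ * star w₂‖ := by
  set X : (WithCStarModule A (A × A)) := (WithCStarModule.equiv A (A × A)).symm (v₁, v₂) with hX
  set Y : (WithCStarModule A (A × A)) := (WithCStarModule.equiv A (A × A)).symm (w₁, w₂) with hY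
  have h1 := CStarModule.norm_inner_le (A := A) (WithCStarModule A (A × A)) (x := X) (y := Y)
  have h2 := WithCStarModule.prod_norm_sq (A := A) X
  have h3 := WithCStarModule.prod_norm_sq (A := A) Y
  rw [WithCStarModule.prod_inner] at h1
  have h4 : ‖w₁ * star v₁ + w₂ * star v₂‖ ≤ ‖X‖ * ‖Y‖ := h1
  have h5 : ‖X‖ ^ 2 = ‖v₁ * star v₁ + v₂ * star v₂‖ := h2
  have h6 : ‖Y‖ ^ 2 = ‖w₁ * star w₁ + w₂ * star w₂‖ := h3
  rw [← h5, ← h6, ← mul_pow]
  exact pow_le_pow_left₀ (norm_nonneg _) h4 2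

theorem midD_norm {y a b : A} (h0 : 0 ≤ y) (h1 : y ≤ 1) (ha : ‖a‖ ≤ 1) (hb : ‖b‖ ≤ 1) :
    ‖y * a * y + (1 - y) * b * (1 - y)‖ ≤ 1 := by
  have hy : star y = y := (IsSelfAdjoint.of_nonneg h0).star_eq
  have hz : star (1 - y) = 1 - y := (IsSelfAdjoint.of_nonneg (sub_nonneg.mpr h1)).star_eq
  have h2 := midD_cs y (1 - y) (y * a) ((1 - y) * b)
  rw [hy, hz] at h2
  have h3 : ‖y * y + (1 - y) * (1 - y)‖ ≤ 1 := by
    refine (CStarAlgebra.norm_le_one_iff_of_nonneg _ ?_).mpr (midD_sum_sq_le h0 h1)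
    have h4 := mul_star_self_nonneg y
    have h5 := mul_star_self_nonneg (1 - y)
    rw [hy] at h4
    rw [hz] at h5
    exact add_nonneg h4 h5
  have hone : ∀ c : A, ‖c‖ ≤ 1 → c * star c ≤ 1 := by
    intro c hc
    refine (CStarAlgebra.norm_le_one_iff_of_nonneg _ (mul_star_self_nonneg c)).mp ?_
    rw [CStarRing.norm_self_mul_star]
    exact mul_le_one₀ hc (norm_nonneg _) hc
  have hconj : ∀ (z c : A), star z = z → ‖c‖ ≤ 1 → z * c * star (z * c) ≤ z * z := by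
    intro z c hzz hc
    have h4 := star_left_conjugate_le_conjugate (hone c hc) z
    rw [hzz, mul_one] at h4
    rw [star_mul, hzz]
    calc z * c * (star c * z) = z * (c * star c) * z := by noncomm_ring
      _ ≤ z * z := h4
  have h6 : ‖y * a * star (y * a) + (1 - y) * b * star ((1 - y) * b)‖ ≤ 1 := by
    refine (CStarAlgebra.norm_le_one_iff_of_nonneg _
      (add_nonneg (mul_star_self_nonneg _) (mul_star_self_nonneg _))).mpr ?_
    exact (add_le_add (hconj y a hy ha) (hconj (1 - y) b hz hb)).trans (midD_sum_sq_le h0 h1)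
  have h7 : ‖y * a * y + (1 - y) * b * (1 - y)‖ ^ 2 ≤ 1 :=
    h2.trans (mul_le_one₀ h3 (norm_nonneg _) h6)
  by_contra h8
  push Not at h8
  nlinarith [norm_nonneg (y * a * y + (1 - y) * b * (1 - y))]

theorem midD_nonneg {y a b : A} (h0 : 0 ≤ y) (h1 : y ≤ 1) (ha : 0 ≤ a) (hb : 0 ≤ b) :
    0 ≤ y * a * y + (1 - y) * b * (1 - y) := by
  have hy : star y = y := (IsSelfAdjoint.of_nonneg h0).star_eq
  have hz : star (1 - y) = 1 - y := (IsSelfAdjoint.of_nonneg (sub_nonneg.mpr h1)).star_eq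
  have h2 := star_left_conjugate_nonneg ha y
  have h3 := star_left_conjugate_nonneg hb (1 - y)
  rw [hy] at h2
  rw [hz] at h3
  exact add_nonneg h2 h3

/-- The calculus: finite sums. -/
theorem midD_sum (hA : AppP.{u}) {G : Type} {α : G → A ≃⋆ₐ[ℂ] A} {Λ : Type u} {l : Filter Λ}
    {y : Λ → A} (hy : HNet l α y) {ι : Type} (s : Finset ι) (X : ι → Λ → A) (u₀ u₁ : ι → A)
    (h : ∀ i, App l α y (X i) (u₀ i) (u₁ i)) :
    App l α y (fun t => ∑ i ∈ s, X i t) (∑ i ∈ s, u₀ i) (∑ i ∈ s, u₁ i) := by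
  classical
  obtain ⟨hc, hm, _, _⟩ := hA A G α Λ l y hy
  induction s using Finset.induction_on with
  | empty =>
    simp only [Finset.sum_empty]
    exact hc 0
  | insert i s hi ih =>
    simp only [Finset.sum_insert hi]
    exact (hm _ _ _ _ _ _ (h i) ih).2.1

end

theorem midD (hH : HNetP.{u}) (hA : AppP.{u}) : MidDP.{u} := by
  intro A _ _ _ G α hE L e₀ e₁ x₀ x₁ he₀ he₁ hx₀ hx₁ he₀0 he₀1 he₁0 he₁1 hn₀ hn₁ ε hε
  obtain ⟨Λ, l, y, hl, hy⟩ := hH A G α hE
  have hcalc := hA A G α Λ l y hy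
  obtain ⟨hc, hm, hmid, hlim⟩ := hcalc
  set e : Λ → A := fun t => y t * e₀ * y t + (1 - y t) * e₁ * (1 - y t) with he
  set x : Fin L → Λ → A := fun i t => y t * x₀ i * y t + (1 - y t) * x₁ i * (1 - y t) with hx
  have aE : App l α y e e₀ e₁ := hmid e₀ e₁
  have aX : ∀ i, App l α y (x i) (x₀ i) (x₁ i) := fun i => hmid (x₀ i) (x₁ i)
  have aEE : App l α y (fun t => e t * e t) (e₀ * e₀) (e₁ * e₁) := (hm _ _ _ _ _ _ aE aE).1
  have aXs : ∀ i, App l α y (fun t => star (x i t)) (star (x₀ i)) (star (x₁ i)) := fun i =>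
    (hm _ _ _ _ _ _ (aX i) (aX i)).2.2.2
  have aT : ∀ i, App l α y (fun t => x i t * (e t * e t) * star (x i t))
      (x₀ i * (e₀ * e₀) * star (x₀ i)) (x₁ i * (e₁ * e₁) * star (x₁ i)) := fun i =>
    (hm _ _ _ _ _ _ (hm _ _ _ _ _ _ (aX i) aEE).1 (aXs i)).1
  have aP : App l α y (fun t => 1 - ∑ i, x i t * (e t * e t) * star (x i t))
      (1 - ∑ i, x₀ i * (e₀ * e₀) * star (x₀ i)) (1 - ∑ i, x₁ i * (e₁ * e₁) * star (x₁ i)) :=
    (hm _ _ _ _ _ _ (hc 1) (midD_sum hA hy Finset.univ _ _ _ aT)).2.2.1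
  have aPP := (hm _ _ _ _ _ _ (hm _ _ _ _ _ _ aP aP).2.2.2 aP).1
  have aQ : ∀ i k : Fin L, App l α y
      (fun t => e t * star (x i t) * x k t * e t - if i = k then e t * e t else 0)
      (e₀ * star (x₀ i) * x₀ k * e₀ - if i = k then e₀ * e₀ else 0)
      (e₁ * star (x₁ i) * x₁ k * e₁ - if i = k then e₁ * e₁ else 0) := by
    intro i k
    have h1 := (hm _ _ _ _ _ _ (hm _ _ _ _ _ _ (hm _ _ _ _ _ _ aE (aXs i)).1 (aX k)).1 aE).1
    by_cases hik : i = k
    · simp only [if_pos hik]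
      exact (hm _ _ _ _ _ _ h1 aEE).2.2.1
    · simp only [if_neg hik]
      exact (hm _ _ _ _ _ _ h1 (hc 0)).2.2.1
  have aQQ : ∀ i k : Fin L, App l α y
      (fun t => star (e t * star (x i t) * x k t * e t - if i = k then e t * e t else 0) *
        (e t * star (x i t) * x k t * e t - if i = k then e t * e t else 0))
      (star (e₀ * star (x₀ i) * x₀ k * e₀ - if i = k then e₀ * e₀ else 0) *
        (e₀ * star (x₀ i) * x₀ k * e₀ - if i = k then e₀ * e₀ else 0))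
      (star (e₁ * star (x₁ i) * x₁ k * e₁ - if i = k then e₁ * e₁ else 0) *
        (e₁ * star (x₁ i) * x₁ k * e₁ - if i = k then e₁ * e₁ else 0)) := fun i k =>
    (hm _ _ _ _ _ _ (hm _ _ _ _ _ _ (aQ i k) (aQ i k)).2.2.2 (aQ i k)).1
  have aS := midD_sum hA hy (Finset.univ : Finset (Fin L)) _ _ _ fun i =>
    midD_sum hA hy (Finset.univ : Finset (Fin L)) _ _ _ fun k => aQQ i k
  have aHD : App l α y (fun t => HD (e t) (fun i => x i t)) (HD e₀ x₀) (HD e₁ x₁) :=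
    (hm _ _ _ _ _ _ aPP aS).2.1
  obtain ⟨t, ht⟩ := (hlim _ _ _ aHD ε hε).exists
  have hyt0 := hy.nonneg t
  have hyt1 := hy.le_one t
  have hinv : ∀ (g : G) (a b : A), α g a = a → α g b = b →
      α g (y t * a * y t + (1 - y t) * b * (1 - y t)) =
        y t * a * y t + (1 - y t) * b * (1 - y t) := by
    intro g a b h1 h2
    simp only [map_add, map_mul, map_sub, map_one, h1, h2, hy.inv t g]
  have hnorm_one : ∀ a : A, 0 ≤ a → a ≤ 1 → ‖a‖ ≤ 1 := fun a h1 h2 =>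
    (CStarAlgebra.norm_le_one_iff_of_nonneg a h1).mpr h2
  have het0 : 0 ≤ e t := midD_nonneg hyt0 hyt1 he₀0 he₁0
  refine ⟨e t, fun i => x i t, fun g => hinv g _ _ (he₀ g) (he₁ g),
    fun g i => hinv g _ _ (hx₀ g i) (hx₁ g i), het0, ?_,
    fun i => midD_norm hyt0 hyt1 (hn₀ i) (hn₁ i), ?_⟩
  · exact (CStarAlgebra.norm_le_one_iff_of_nonneg _ het0).mp
      (midD_norm hyt0 hyt1 (hnorm_one _ he₀0 he₀1) (hnorm_one _ he₁0 he₁1))
  · intro φ hφ
    have h1 := ht φ hφ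
    have h2 := (Complex.abs_re_le_norm _).trans h1
    have h3 : ((φ.φ (HD (e t) fun i => x i t) -
        (φ.φ (HD e₀ x₀) + φ.φ (HD e₁ x₁)) / 2)).re =
        (φ.φ (HD (e t) fun i => x i t)).re -
          ((φ.φ (HD e₀ x₀)).re + (φ.φ (HD e₁ x₁)).re) / 2 := by
      simp [Complex.sub_re, Complex.add_re]
    rw [h3] at h2
    have h4 := (abs_le.mp h2).2
    linarith

end RC
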